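import Pool.Agent.Helper17.SN.Defs

set_option autoImplicit false

open CategoryTheory CategoryTheory.Limits

namespace Pool.Agent.Helper17.SN

universe u v w

namespace ChowTheory

variable {𝒱 : Type u} [Category.{v} 𝒱] {S : ChowTheory.{u, v, w} 𝒱} [HasBinaryProducts 𝒱]

theorem pow_mem (hS : S.Standard) {X : 𝒱} {L x : S.A X} (hL : L ∈ S.gr X 1) {i : ℕ}
    (hx : x ∈ S.gr X i) (k : ℕ) : L ^ k * x ∈ S.gr X (i + k) := by
  induction k with
  | zero => simpa using hx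
  | succ k ih =>
    have := hS.mul_mem hL ih
    rw [← mul_assoc, ← pow_succ', show 1 + (i + k) = i + (k + 1) by omega] at this
    exact this

theorem pull_lift (hS : S.Standard) {X Y Z : 𝒱} (f : Z ⟶ X) (g : Z ⟶ Y) (x : S.A X) (y : S.A Y) :
    S.pull (prod.lift f g) (ex S x y) = S.pull f x * S.pull g y := by
  rw [ex, map_mul, ← hS.pull_comp, ← hS.pull_comp, prod.lift_fst, prod.lift_snd]

theorem ex_mem_gr (hS : S.Standard) {X Y : 𝒱} {x : S.A X} {y : S.A Y} {i j : ℕ}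
    (hx : x ∈ S.gr X i) (hy : y ∈ S.gr Y j) : ex S x y ∈ S.gr (X ⨯ Y) (i + j) :=
  hS.mul_mem (hS.pull_gr _ _ _ hx) (hS.pull_gr _ _ _ hy)

theorem ex_mem_hom_left (hS : S.Standard) {X Y : 𝒱} {x : S.A X} {y : S.A Y}
    (hx : x ∈ S.hom X) : ex S x y ∈ S.hom (X ⨯ Y) :=
  Ideal.mul_mem_right _ _ (hS.pull_hom _ _ hx)

theorem ex_mem_hom_right (hS : S.Standard) {X Y : 𝒱} {x : S.A X} {y : S.A Y}
    (hy : y ∈ S.hom Y) : ex S x y ∈ S.hom (X ⨯ Y) :=
  Ideal.mul_mem_left _ _ (hS.pull_hom _ _ hy)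

theorem ex_one_one {X Y : 𝒱} (L : S.A X) (M : S.A Y) : ex S L 1 + ex S 1 M =
    S.pull (prod.fst : X ⨯ Y ⟶ X) L + S.pull (prod.snd : X ⨯ Y ⟶ Y) M := by
  simp [ex]

/-- the polarization of the product -/
noncomputable def lp (S : ChowTheory.{u, v, w} 𝒱) {X Y : 𝒱} (L : S.A X) (M : S.A Y) :
    S.A (X ⨯ Y) :=
  S.pull (prod.fst : X ⨯ Y ⟶ X) L + S.pull (prod.snd : X ⨯ Y ⟶ Y) M

theorem lp_mul_ex {X Y : 𝒱} (L x : S.A X) (M y : S.A Y) :
    lp S L M * ex S x y = ex S (L * x) y + ex S x (M * y) := by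
  simp only [lp, ex, map_mul]
  ring

theorem ample_lp (hS : S.Standard) {X Y : 𝒱} {L : S.A X} {M : S.A Y} (hL : S.Ample L)
    (hM : S.Ample M) : S.Ample (lp S L M) := by
  have := hS.ample_prod L M hL hM
  rwa [ex_one_one] at this

/-- a class of codimension `a` and weight `l ≥ 0` killed by the ample class `L` -/
structure HW (S : ChowTheory.{u, v, w} 𝒱) {X : 𝒱} (L x : S.A X) (a l : ℕ) : Prop where
  ample : S.Ample L
  gr : x ∈ S.gr X a
  hom : x ∈ S.hom X
  kill : L * x = 0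
  wt : 2 * a = S.dim X + 1 + l

theorem HW.ex (hS : S.Standard) {X Y : 𝒱} {L x : S.A X} {M y : S.A Y} {a l b m : ℕ}
    (hx : HW S L x a l) (hy : HW S M y b m) :
    HW S (lp S L M) (ex S x y) (a + b) (l + m + 1) where
  ample := ample_lp hS hx.ample hy.ample
  gr := ex_mem_gr hS hx.gr hy.gr
  hom := ex_mem_hom_left hS hx.hom
  kill := by
    rw [lp_mul_ex, hx.kill, hy.kill]
    simp [ChowTheory.ex]
  wt := by
    have h1 := hx.wt
    have h2 := hy.wt
    rw [hS.dim_prod]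
    omega

/-- Q1: surjectivity -/
theorem surj (hS : S.Standard) {X : 𝒱} {L x : S.A X} (hL : S.Lefschetz L) {a l : ℕ}
    (hx : x ∈ S.gr X a) (hx0 : x ∈ S.hom X) (hne : x ≠ 0) (ha : 2 * a = S.dim X + 1 + l) :
    ∃ (i : ℕ) (z : S.A X), 1 ≤ i ∧ S.dim X + 1 = 2 * i + l ∧ i + l = a ∧ z ∈ S.gr X i ∧
      z ∈ S.hom X ∧ L ^ l * z = x := by
  have had : a ≤ S.dim X := by
    by_contra h
    exact hne (hS.gr_large (not_le.mp h) hx)
  obtain ⟨z, hz, hzx⟩ := (hL (S.dim X + 1 - a) (by omega) (by omega)).surjOn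
    (show x ∈ S.homGr X (S.dim X + 1 - (S.dim X + 1 - a)) from by
      rw [show S.dim X + 1 - (S.dim X + 1 - a) = a by omega]; exact ⟨hx, hx0⟩)
  refine ⟨S.dim X + 1 - a, z, by omega, by omega, by omega, hz.1, hz.2, ?_⟩
  simp only [show S.dim X + 1 - 2 * (S.dim X + 1 - a) = l by omega] at hzx
  exact hzx

/-- Q2: a primitive isotropic class is zero -/
theorem isotropic (hS : S.Standard) {X : 𝒱} {L x : S.A X} (hL : S.Index L) {i m : ℕ}
    (hx : x ∈ S.gr X i) (hx0 : x ∈ S.hom X) (hi : S.dim X + 1 = 2 * i + m)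
    (hk : L ^ (m + 1) * x = 0) (hh : S.ht x (L ^ m * x) = 0) : x = 0 := by
  by_contra hne
  have hi1 : 1 ≤ i := by
    rcases Nat.eq_zero_or_pos i with h | h
    · subst h
      exact absurd (hS.hom_zero hx hx0) hne
    · exact h
  have h := hL i hi1 (by omega) x ⟨hx, hx0⟩ hne (by
    rw [show S.dim X + 2 - 2 * i = m + 1 by omega]
    exact hk)
  rw [show S.dim X + 1 - 2 * i = m by omega, hh, mul_zero] at h
  exact lt_irrefl _ h

theorem ht_zero_right (hS : S.Standard) {X : 𝒱} {x : S.A X} (hx : x ∈ S.hom X) :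
    S.ht x 0 = 0 := by
  have h1 := hS.ht_add 0 (Ideal.zero_mem _) 0 (Ideal.zero_mem _) x hx
  rw [add_zero] at h1
  rw [hS.ht_symm x hx 0 (Ideal.zero_mem _)]
  linarith

/-- moving a factor in the height pairing -/
theorem ht_zero_of_mul (hS : S.Standard) {X : 𝒱} {a u w : S.A X} (hu : u ∈ S.hom X)
    (hw : w ∈ S.hom X) (h : a * w = 0) : S.ht (a * u) w = 0 := by
  rw [hS.ht_mul a u hu w hw, h, ht_zero_right hS hu]

theorem ht_zero_sum (hS : S.Standard) {X : 𝒱} {x : S.A X} (hx : x ∈ S.hom X) {ι : Type}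
    (F : Finset ι) (w : ι → S.A X) (hw : ∀ s ∈ F, w s ∈ S.hom X)
    (h : ∀ s ∈ F, S.ht x (w s) = 0) : S.ht x (∑ s ∈ F, w s) = 0 := by
  classical
  induction F using Finset.induction_on with
  | empty => simpa using ht_zero_right hS hx
  | insert a F ha ih =>
    have hF : ∑ s ∈ F, w s ∈ S.hom X :=
      Ideal.sum_mem _ fun s hs => hw s (Finset.mem_insert_of_mem hs)
    have hwa := hw a (Finset.mem_insert_self _ _)
    rw [Finset.sum_insert ha, hS.ht_symm x hx _ (Ideal.add_mem _ hwa hF),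
      hS.ht_add _ hwa _ hF x hx, hS.ht_symm _ hwa x hx, hS.ht_symm _ hF x hx,
      h a (Finset.mem_insert_self _ _),
      ih (fun s hs => hw s (Finset.mem_insert_of_mem hs))
        (fun s hs => h s (Finset.mem_insert_of_mem hs)), add_zero]

theorem lp_pow_ex {X Y : 𝒱} {L x : S.A X} (M y : S.A Y) (hx : L * x = 0) (k : ℕ) :
    lp S L M ^ k * ex S x y = ex S x (M ^ k * y) := by
  induction k with
  | zero => simp
  | succ k ih =>
    rw [pow_succ', mul_assoc, ih, lp_mul_ex, hx]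
    simp only [ex, map_zero, zero_mul, zero_add, map_mul, map_pow]
    ring

end ChowTheory

end Pool.Agent.Helper17.SN
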