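import Pool.Agent.Helper17.SN.Main

set_option autoImplicit false

open CategoryTheory CategoryTheory.Limits

namespace Pool.Agent.Helper17.SN

universe u v w

namespace ChowTheory

variable {𝒱 : Type u} [Category.{v} 𝒱] {S : ChowTheory.{u, v, w} 𝒱} [HasBinaryProducts 𝒱]

/-- the action of the transpose -/
noncomputable def tact (S : ChowTheory.{u, v, w} 𝒱) {X Y : 𝒱} (Γ : S.A (X ⨯ Y)) (y : S.A Y) :
    S.A X :=
  S.push (prod.fst : X ⨯ Y ⟶ X) (Γ * S.pull (prod.snd : X ⨯ Y ⟶ Y) y)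

/-- composition with the transpose -/
noncomputable def sq (S : ChowTheory.{u, v, w} 𝒱) {X Y : 𝒱} (Γ : S.A (X ⨯ Y)) : S.A (X ⨯ X) :=
  S.push (prod.map (𝟙 X) (prod.fst : X ⨯ Y ⟶ X))
    (S.pull (prod.snd : X ⨯ (X ⨯ Y) ⟶ X ⨯ Y) Γ *
      S.pull (prod.map (𝟙 X) (prod.snd : X ⨯ Y ⟶ Y)) Γ)

theorem act_sq (hS : S.Standard) {X Y : 𝒱} (Γ : S.A (X ⨯ Y)) (x : S.A X) :
    S.act (sq S Γ) x = tact S Γ (S.act Γ x) := by
  have h1 : S.act (sq S Γ) x = S.push ((prod.map (𝟙 X) (prod.fst : X ⨯ Y ⟶ X)) ≫ prod.snd)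
      ((S.pull (prod.snd : X ⨯ (X ⨯ Y) ⟶ X ⨯ Y) Γ *
        S.pull (prod.map (𝟙 X) (prod.snd : X ⨯ Y ⟶ Y)) Γ) *
        S.pull ((prod.map (𝟙 X) (prod.fst : X ⨯ Y ⟶ X)) ≫ prod.fst) x) := by
    rw [hS.push_comp, hS.pull_comp, mul_comm (_ * _) (S.pull _ (S.pull _ x)), hS.projection,
      mul_comm]
    rfl
  have h2 : tact S Γ (S.act Γ x) = S.push ((prod.snd : X ⨯ (X ⨯ Y) ⟶ X ⨯ Y) ≫ prod.fst)
      ((S.pull (prod.snd : X ⨯ (X ⨯ Y) ⟶ X ⨯ Y) Γ *
        S.pull (prod.map (𝟙 X) (prod.snd : X ⨯ Y ⟶ Y)) Γ) *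
        S.pull ((prod.map (𝟙 X) (prod.snd : X ⨯ Y ⟶ Y)) ≫ prod.fst) x) := by
    rw [tact, act, hS.base_change, ← hS.projection, hS.push_comp, hS.pull_comp,
      map_mul (S.pull (prod.map (𝟙 X) (prod.snd : X ⨯ Y ⟶ Y))), mul_assoc]
  rw [h1, h2, prod.map_snd, prod.map_fst, prod.map_fst, Category.comp_id]

theorem sq_mem (hS : S.Standard) {X Y : 𝒱} {Γ : S.A (X ⨯ Y)} {i : ℕ}
    (hΓ : Γ ∈ S.gr (X ⨯ Y) i) (hΓ0 : Γ ∈ S.hom (X ⨯ Y)) (hi : 2 * i = S.dim X + S.dim Y) :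
    sq S Γ ∈ S.homGr (X ⨯ X) (S.dim X) := by
  refine ⟨hS.push_gr _ (i + i) _ _ ?_ (hS.mul_mem (hS.pull_gr _ _ _ hΓ) (hS.pull_gr _ _ _ hΓ)),
    hS.push_hom _ _ (Ideal.mul_mem_right _ _ (hS.pull_hom _ _ hΓ0))⟩
  rw [hS.dim_prod, hS.dim_prod, hS.dim_prod]
  omega

/-- `act` and `tact` are adjoint -/
theorem ht_adj (hS : S.Standard) {X Y : 𝒱} (Γ : S.A (X ⨯ Y)) {x : S.A X} {y : S.A Y}
    (hx : x ∈ S.hom X) (hy : y ∈ S.hom Y) : S.ht x (tact S Γ y) = S.ht y (S.act Γ x) := by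
  have hx' := hS.pull_hom (prod.fst : X ⨯ Y ⟶ X) x hx
  have hy' := hS.pull_hom (prod.snd : X ⨯ Y ⟶ Y) y hy
  rw [tact, act, ← hS.ht_push _ x hx _ (Ideal.mul_mem_left _ _ hy'),
    ← hS.ht_push _ y hy _ (Ideal.mul_mem_left _ _ hx'), ← hS.ht_mul _ _ hx' _ hy',
    hS.ht_symm _ (Ideal.mul_mem_left _ _ hx') _ hy']

theorem act_hom (hS : S.Standard) {X Y : 𝒱} (Γ : S.A (X ⨯ Y)) {x : S.A X} (hx : x ∈ S.hom X) :
    S.act Γ x ∈ S.hom Y :=
  hS.push_hom _ _ (Ideal.mul_mem_left _ _ (hS.pull_hom _ _ hx))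

theorem tact_hom (hS : S.Standard) {X Y : 𝒱} (Γ : S.A (X ⨯ Y)) {y : S.A Y} (hy : y ∈ S.hom Y) :
    tact S Γ y ∈ S.hom X :=
  hS.push_hom _ _ (Ideal.mul_mem_left _ _ (hS.pull_hom _ _ hy))

/-- a symmetric locally nilpotent operator on a definite space is zero -/
theorem nil_symm (hS : S.Standard) {X : 𝒱} {L : S.A X} (hL : S.Index L) {a : ℕ}
    (ha : S.dim X + 1 = 2 * a) (T : S.A X → S.A X)
    (hT : ∀ x, x ∈ S.gr X a → x ∈ S.hom X → L * x = 0 →
      T x ∈ S.gr X a ∧ T x ∈ S.hom X ∧ L * T x = 0)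
    (hsym : ∀ x y, x ∈ S.hom X → y ∈ S.hom X → S.ht (T x) y = S.ht x (T y)) (hT0 : T 0 = 0)
    {x : S.A X} (hx : x ∈ S.gr X a) (hx0 : x ∈ S.hom X) (hk : L * x = 0) {N : ℕ}
    (hN : T^[N] x = 0) : T x = 0 := by
  have hmem : ∀ k, T^[k] x ∈ S.gr X a ∧ T^[k] x ∈ S.hom X ∧ L * T^[k] x = 0 := by
    intro k
    induction k with
    | zero => exact ⟨hx, hx0, hk⟩
    | succ k ih =>
      rw [Function.iterate_succ_apply']
      exact hT _ ih.1 ih.2.1 ih.2.2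
  have hshift : ∀ k l, S.ht (T^[k] x) (T^[l] x) = S.ht x (T^[k + l] x) := by
    intro k
    induction k with
    | zero => intro l; rw [Nat.zero_add]; rfl
    | succ k ih =>
      intro l
      rw [Function.iterate_succ_apply', hsym _ _ (hmem k).2.1 (hmem l).2.1,
        ← Function.iterate_succ_apply' T l x, ih (l + 1)]
      congr 2
      omega
  have hzero : ∀ k, T^[k + N] x = 0 := by
    intro k
    rw [Function.iterate_add_apply, hN]
    induction k with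
    | zero => rfl
    | succ k ih => rw [Function.iterate_succ_apply', ih, hT0]
  have hdown : ∀ k, T^[k + 2] x = 0 → T^[k + 1] x = 0 := by
    intro k hk2
    obtain ⟨h1, h2, h3⟩ := hmem (k + 1)
    refine isotropic hS hL h1 h2 (i := a) (m := 0) (by omega) (by simpa using h3) ?_
    rw [pow_zero, one_mul, hshift]
    have h4 : T^[k + 1 + (k + 1)] x = 0 := by
      rw [show k + 1 + (k + 1) = k + (k + 2) by omega, Function.iterate_add_apply, hk2]
      clear h1 h2 h3 hk2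
      induction k with
      | zero => rfl
      | succ k ih => rw [Function.iterate_succ_apply', ih, hT0]
    rw [h4]
    exact ht_zero_right hS hx0
  have hall : ∀ k, T^[k + 1] x = 0 → T x = 0 := by
    intro k
    induction k with
    | zero => intro h; exact h
    | succ k ih => intro h; exact ih (hdown k h)
  exact hall N (by rw [show N + 1 = 1 + N by omega]; exact hzero 1)

/-- the theorem for primitive cycles of middle codimension -/
theorem nil_mid (hS : S.Standard)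
    (hQ : ∀ (X : 𝒱) (L : S.A X), S.Ample L → S.Lefschetz L ∧ S.Index L)
    {X Y : 𝒱} {L x : S.A X} {M y : S.A Y} {a b : ℕ}
    (hx : HW S L x a 0) (hy : HW S M y b 0) (hX : S.NilpotentAction X) : ex S x y = 0 := by
  by_contra hne
  have hz := hx.ex hS hy
  obtain ⟨hP1, hP2⟩ := hQ _ _ hz.ample
  obtain ⟨i, v, hi1, hid, hia, hvg, hvh, hvz⟩ := surj hS hP1 hz.gr hz.hom hne hz.wt
  have hdx := hx.wt
  have hdy := hy.wt
  have hdp := hS.dim_prod X Y
  have hvz' : S.pull (prod.fst : X ⨯ Y ⟶ X) L * v + S.pull (prod.snd : X ⨯ Y ⟶ Y) M * v =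
      ex S x y := by
    rw [← hvz, lp]
    ring
  -- the operators preserve the primitive classes
  have hact : ∀ x', x' ∈ S.gr X a → x' ∈ S.hom X → L * x' = 0 →
      S.act v x' ∈ S.gr Y b ∧ S.act v x' ∈ S.hom Y ∧ M * S.act v x' = 0 := by
    intro x' h1 h2 h3
    refine ⟨hS.push_gr _ (i + a) _ _ (by omega) (hS.mul_mem hvg (hS.pull_gr _ _ _ h1)),
      act_hom hS v h2, ?_⟩
    have h4 : x * x' = 0 := hS.gr_large (by omega) (hS.mul_mem hx.gr h1)
    rw [act, ← hS.projection]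
    have h5 : S.pull (prod.snd : X ⨯ Y ⟶ Y) M * (v * S.pull (prod.fst : X ⨯ Y ⟶ X) x') = 0 := by
      calc _ = (S.pull (prod.fst : X ⨯ Y ⟶ X) L * v + S.pull (prod.snd : X ⨯ Y ⟶ Y) M * v) *
            S.pull (prod.fst : X ⨯ Y ⟶ X) x' - v * S.pull (prod.fst : X ⨯ Y ⟶ X) (L * x') := by
            rw [map_mul]; ring
        _ = S.pull (prod.snd : X ⨯ Y ⟶ Y) y * S.pull (prod.fst : X ⨯ Y ⟶ X) (x * x') := by
            rw [hvz', h3, map_zero, mul_zero, sub_zero, ex, map_mul]; ring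
        _ = 0 := by rw [h4, map_zero, mul_zero]
    rw [h5, map_zero]
  have htact : ∀ y', y' ∈ S.gr Y b → y' ∈ S.hom Y → M * y' = 0 →
      tact S v y' ∈ S.gr X a ∧ tact S v y' ∈ S.hom X ∧ L * tact S v y' = 0 := by
    intro y' h1 h2 h3
    refine ⟨hS.push_gr _ (i + b) _ _ (by omega) (hS.mul_mem hvg (hS.pull_gr _ _ _ h1)),
      tact_hom hS v h2, ?_⟩
    have h4 : y * y' = 0 := hS.gr_large (by omega) (hS.mul_mem hy.gr h1)
    rw [tact, ← hS.projection]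
    have h5 : S.pull (prod.fst : X ⨯ Y ⟶ X) L * (v * S.pull (prod.snd : X ⨯ Y ⟶ Y) y') = 0 := by
      calc _ = (S.pull (prod.fst : X ⨯ Y ⟶ X) L * v + S.pull (prod.snd : X ⨯ Y ⟶ Y) M * v) *
            S.pull (prod.snd : X ⨯ Y ⟶ Y) y' - v * S.pull (prod.snd : X ⨯ Y ⟶ Y) (M * y') := by
            rw [map_mul]; ring
        _ = S.pull (prod.fst : X ⨯ Y ⟶ X) x * S.pull (prod.snd : X ⨯ Y ⟶ Y) (y * y') := by
            rw [hvz', h3, map_zero, mul_zero, sub_zero, ex, map_mul]; ring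
        _ = 0 := by rw [h4, map_zero, mul_zero]
    rw [h5, map_zero]
  have hΓ : sq S v ∈ S.homGr (X ⨯ X) (S.dim X) := sq_mem hS hvg hvh (by omega)
  obtain ⟨N, hN⟩ := hX _ hΓ a x ⟨hx.gr, hx.hom⟩
  have hTx : S.act (sq S v) x = 0 := by
    refine nil_symm hS (hQ X L hx.ample).2 (by omega) (S.act (sq S v)) ?_ ?_ ?_ hx.gr hx.hom
      hx.kill hN
    · intro x' h1 h2 h3
      rw [act_sq hS]
      obtain ⟨h4, h5, h6⟩ := hact x' h1 h2 h3
      exact htact _ h4 h5 h6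
    · intro x' x'' h1 h2
      rw [act_sq hS, act_sq hS, ht_adj hS v h1 (act_hom hS v h2),
        hS.ht_symm _ (tact_hom hS v (act_hom hS v h1)) _ h2, ht_adj hS v h2 (act_hom hS v h1),
        hS.ht_symm _ (act_hom hS v h1) _ (act_hom hS v h2)]
    · rw [act, map_zero, mul_zero, map_zero]
  have hvx : S.act v x = 0 := by
    obtain ⟨h1, h2, h3⟩ := hact x hx.gr hx.hom hx.kill
    refine isotropic hS (hQ Y M hy.ample).2 h1 h2 (i := b) (m := 0) (by omega)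
      (by simpa using h3) ?_
    rw [pow_zero, one_mul, ← ht_adj hS v hx.hom h2, ← act_sq hS, hTx]
    exact ht_zero_right hS hx.hom
  have hv : v = 0 := by
    refine isotropic hS hP2 (i := i) (m := 0 + 0 + 1) hvg hvh hid ?_ ?_
    · rw [pow_succ', mul_assoc, hvz]
      exact hz.kill
    · have hy' := hS.pull_hom (prod.snd : X ⨯ Y ⟶ Y) y hy.hom
      rw [hvz, hS.ht_symm _ hvh _ hz.hom]
      show S.ht (S.pull (prod.fst : X ⨯ Y ⟶ X) x * S.pull (prod.snd : X ⨯ Y ⟶ Y) y) v = 0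
      rw [hS.ht_mul _ _ hy' _ hvh, mul_comm,
        hS.ht_push _ y hy.hom _ (Ideal.mul_mem_right _ _ hvh)]
      show S.ht y (S.act v x) = 0
      rw [hvx]
      exact ht_zero_right hS hy.hom
  apply hne
  rw [← hvz, hv, mul_zero]

end ChowTheory

end Pool.Agent.Helper17.SN
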