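import Mathlib

/-!
# Rational Chow rings with height pairings, correspondences and smash-nilpotent cycles

`ChowTheory 𝒱`: rational Chow rings on a category `𝒱` with products (the connected smooth
projective varieties over the algebraic closure of the rational numbers), with the cycles
homologous to zero, push-forward, ample classes and the height pairing of Beilinson and Bloch.
`ChowTheory.Standard`: their standard properties.
-/

set_option autoImplicit false

open CategoryTheory CategoryTheory.Limits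

namespace Pool.Agent.Helper17.SN

universe u v w

/-- Rational Chow rings with homological equivalence, push-forward, ample classes and heights. -/
structure ChowTheory (𝒱 : Type u) [Category.{v} 𝒱] where
  /-- the Chow ring with rational coefficients -/
  A : 𝒱 → Type w
  [ring : ∀ X, CommRing (A X)]
  [alg : ∀ X, Algebra ℚ (A X)]
  /-- the dimension -/
  dim : 𝒱 → ℕ
  /-- the cycles of codimension `i` -/
  gr : ∀ X : 𝒱, ℕ → Submodule ℚ (A X)
  /-- the ideal of the cycles homologous to zero -/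
  hom : ∀ X : 𝒱, Ideal (A X)
  /-- pull-back of cycles -/
  pull : ∀ {X Y : 𝒱}, (X ⟶ Y) → (A Y →ₐ[ℚ] A X)
  /-- push-forward of cycles -/
  push : ∀ {X Y : 𝒱}, (X ⟶ Y) → (A X →+ A Y)
  /-- classes of ample divisors -/
  Ample : ∀ {X : 𝒱}, A X → Prop
  /-- the height pairing of cycles homologous to zero -/
  ht : ∀ {X : 𝒱}, A X → A X → ℝ

attribute [instance] ChowTheory.ring ChowTheory.alg

namespace ChowTheory

variable {𝒱 : Type u} [Category.{v} 𝒱] (S : ChowTheory.{u, v, w} 𝒱)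

/-- the group `Ch^i(X)^0` of cycles of codimension `i` homologous to zero -/
def homGr (X : 𝒱) (i : ℕ) : Set (S.A X) := {x | x ∈ S.gr X i ∧ x ∈ S.hom X}

/-- Beilinson's Q1 for `(X, L)` -/
def Lefschetz {X : 𝒱} (L : S.A X) : Prop :=
  ∀ i : ℕ, 1 ≤ i → 2 * i ≤ S.dim X + 1 →
    Set.BijOn (fun x => L ^ (S.dim X + 1 - 2 * i) * x) (S.homGr X i) (S.homGr X (S.dim X + 1 - i))

/-- Beilinson's Q2 for `(X, L)` -/
def Index {X : 𝒱} (L : S.A X) : Prop :=
  ∀ i : ℕ, 1 ≤ i → 2 * i ≤ S.dim X + 1 → ∀ x ∈ S.homGr X i, x ≠ 0 →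
    L ^ (S.dim X + 2 - 2 * i) * x = 0 →
      0 < (-1 : ℝ) ^ i * S.ht x (L ^ (S.dim X + 1 - 2 * i) * x)

/-- products of two cycles homologous to zero are zero -/
def ProductsVanish : Prop :=
  ∀ (X : 𝒱) (i j : ℕ), ∀ x ∈ S.homGr X i, ∀ y ∈ S.homGr X j, x * y = 0

/-- properties of the grading by the codimension -/
structure Graded : Prop where
  mul_mem : ∀ {X : 𝒱} {i j : ℕ} {a b : S.A X}, a ∈ S.gr X i → b ∈ S.gr X j → a * b ∈ S.gr X (i + j)
  one_mem : ∀ X : 𝒱, (1 : S.A X) ∈ S.gr X 0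
  /-- a cycle of codimension zero homologous to zero is zero -/
  hom_zero : ∀ {X : 𝒱} {a : S.A X}, a ∈ S.gr X 0 → a ∈ S.hom X → a = 0
  /-- there are no cycles of codimension larger than the dimension -/
  gr_large : ∀ {X : 𝒱} {i : ℕ} {a : S.A X}, S.dim X < i → a ∈ S.gr X i → a = 0

/-- properties of pull-back -/
structure Functorial : Prop where
  pull_id : ∀ (X : 𝒱) (a : S.A X), S.pull (𝟙 X) a = a
  pull_comp : ∀ {X Y Z : 𝒱} (f : X ⟶ Y) (g : Y ⟶ Z) (a : S.A Z),
    S.pull (f ≫ g) a = S.pull f (S.pull g a)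
  pull_gr : ∀ {X Y : 𝒱} (f : X ⟶ Y) (i : ℕ) (a : S.A Y), a ∈ S.gr Y i → S.pull f a ∈ S.gr X i
  pull_hom : ∀ {X Y : 𝒱} (f : X ⟶ Y) (a : S.A Y), a ∈ S.hom Y → S.pull f a ∈ S.hom X

/-- properties of push-forward -/
structure PushStandard : Prop where
  push_comp : ∀ {X Y Z : 𝒱} (f : X ⟶ Y) (g : Y ⟶ Z) (a : S.A X),
    S.push (f ≫ g) a = S.push g (S.push f a)
  /-- the projection formula -/
  projection : ∀ {X Y : 𝒱} (f : X ⟶ Y) (a : S.A Y) (b : S.A X),
    S.push f (S.pull f a * b) = a * S.push f b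
  /-- push-forward preserves the dimension of cycles -/
  push_gr : ∀ {X Y : 𝒱} (f : X ⟶ Y) (i j : ℕ) (a : S.A X), i + S.dim Y = j + S.dim X →
    a ∈ S.gr X i → S.push f a ∈ S.gr Y j
  push_hom : ∀ {X Y : 𝒱} (f : X ⟶ Y) (a : S.A X), a ∈ S.hom X → S.push f a ∈ S.hom Y

/-- properties of the height pairing of cycles homologous to zero -/
structure HtStandard : Prop where
  ht_add : ∀ {X : 𝒱}, ∀ x ∈ S.hom X, ∀ y ∈ S.hom X, ∀ z ∈ S.hom X,
    S.ht (x + y) z = S.ht x z + S.ht y z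
  ht_symm : ∀ {X : 𝒱}, ∀ x ∈ S.hom X, ∀ y ∈ S.hom X, S.ht x y = S.ht y x
  ht_mul : ∀ {X : 𝒱} (a : S.A X), ∀ x ∈ S.hom X, ∀ y ∈ S.hom X, S.ht (a * x) y = S.ht x (a * y)
  ht_push : ∀ {X Y : 𝒱} (f : X ⟶ Y), ∀ y ∈ S.hom Y, ∀ x ∈ S.hom X,
    S.ht (S.pull f y) x = S.ht y (S.push f x)

variable [HasBinaryProducts 𝒱]

/-- the external product `x × y`, a cycle on `X × Y` -/
noncomputable def ex {X Y : 𝒱} (x : S.A X) (y : S.A Y) : S.A (X ⨯ Y) :=
  S.pull (prod.fst : X ⨯ Y ⟶ X) x * S.pull (prod.snd : X ⨯ Y ⟶ Y) y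

/-- the action `x ↦ pr_2_* (Γ · pr_1^* x)` of a correspondence `Γ` from `X` to `Y` -/
noncomputable def act {X Y : 𝒱} (Γ : S.A (X ⨯ Y)) (x : S.A X) : S.A Y :=
  S.push (prod.snd : X ⨯ Y ⟶ Y) (Γ * S.pull (prod.fst : X ⨯ Y ⟶ X) x)

/-- the correspondences of degree zero from `X` to `X` which are homologous to zero act locally
nilpotently on the cycles homologous to zero -/
def NilpotentAction (X : 𝒱) : Prop :=
  ∀ Γ ∈ S.homGr (X ⨯ X) (S.dim X), ∀ i : ℕ, ∀ x ∈ S.homGr X i, ∃ N : ℕ, (S.act Γ)^[N] x = 0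

/-- the power `X^(k+1)` -/
noncomputable def pow (X : 𝒱) : ℕ → 𝒱
  | 0 => X
  | k + 1 => X ⨯ pow X k

/-- the external power `x × ... × x` with `k + 1` factors, a cycle on `X^(k+1)` -/
noncomputable def smash {X : 𝒱} (x : S.A X) : ∀ k : ℕ, S.A (pow X k)
  | 0 => x
  | k + 1 => S.ex x (smash x k)

/-- `x` is smash-nilpotent: `x × ... × x = 0` on some power of `X` -/
def SmashNilpotent {X : 𝒱} (x : S.A X) : Prop := ∃ k : ℕ, S.smash x k = 0

/-- Voevodsky's conjecture: cycles homologous to zero are smash-nilpotent -/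
def Voevodsky : Prop := ∀ (X : 𝒱) (i : ℕ), ∀ x ∈ S.homGr X i, S.SmashNilpotent x

/-- properties of dimensions and ample classes -/
structure AmpleStandard : Prop where
  ample_gr : ∀ {X : 𝒱} {L : S.A X}, S.Ample L → L ∈ S.gr X 1
  exists_ample : ∀ X : 𝒱, ∃ L : S.A X, S.Ample L
  dim_prod : ∀ X Y : 𝒱, S.dim (X ⨯ Y) = S.dim X + S.dim Y
  ample_prod : ∀ {X Y : 𝒱} (L : S.A X) (M : S.A Y), S.Ample L → S.Ample M →
    S.Ample (S.ex L 1 + S.ex 1 M)

/-- on `X × P`, the powers `1, h, ..., h^N` are linearly independent over the Chow ring of `X` -/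
def Independent {P : 𝒱} (h : S.A P) (N : ℕ) : Prop :=
  ∀ (X : 𝒱) (a : ℕ → S.A X), ∑ k ∈ Finset.range (N + 1), S.ex (a k) (h ^ k) = 0 →
    ∀ k ≤ N, a k = 0

/-- `P` is the projective space of dimension `N` and `h` the hyperplane class -/
structure IsProjective (P : 𝒱) (h : S.A P) (N : ℕ) : Prop where
  dim_eq : S.dim P = N
  ample : S.Ample h
  pow_zero : h ^ (N + 1) = 0
  indep : S.Independent h N

/-- Standard properties of Chow rings and height pairings. -/
structure Standard : Prop extends S.Graded, S.Functorial, S.PushStandard, S.HtStandard,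
    S.AmpleStandard where
  /-- base change for the projections `X × Y → Y` -/
  base_change : ∀ (X : 𝒱) {Y Y' : 𝒱} (g : Y' ⟶ Y) (b : S.A (X ⨯ Y)),
    S.pull g (S.push (prod.snd : X ⨯ Y ⟶ Y) b) =
      S.push (prod.snd : X ⨯ Y' ⟶ Y') (S.pull (prod.map (𝟙 X) g) b)
  projective : ∀ N : ℕ, ∃ (P : 𝒱) (h : S.A P), S.IsProjective P h N

/-- The variety `X` is stably nilpotent: there is one variety `P N` of each dimension `N`, with the
properties of the projective space of dimension `N` (for instance this space itself), such that all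
products `(X × P N) × P M` have nilpotent action. (This holds for instance if the motive of `X` is
finite-dimensional in the sense of Kimura.) -/
def StablyNilpotent (X : 𝒱) : Prop :=
  ∃ (P : ℕ → 𝒱) (h : ∀ N, S.A (P N)), (∀ N, S.IsProjective (P N) (h N) N) ∧
    ∀ N M : ℕ, S.NilpotentAction ((X ⨯ P N) ⨯ P M)

end ChowTheory

end Pool.Agent.Helper17.SN
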