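import Pool.Agent.Helper17.SN.Corr

set_option autoImplicit false

open CategoryTheory CategoryTheory.Limits

namespace Pool.Agent.Helper17.SN

universe u v w

namespace ChowTheory

variable {𝒱 : Type u} [Category.{v} 𝒱] {S : ChowTheory.{u, v, w} 𝒱} [HasBinaryProducts 𝒱]

/-- reduction to primitive classes of middle codimension -/
theorem reduce (hS : S.Standard)
    (hQ : ∀ (X : 𝒱) (L : S.A X), S.Ample L → S.Lefschetz L ∧ S.Index L)
    {Pr : ℕ → 𝒱} {hPr : ∀ N, S.A (Pr N)} (hproj : ∀ N, S.IsProjective (Pr N) (hPr N) N)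
    {X : 𝒱} {i : ℕ} {x : S.A X} (hi : 1 ≤ i) (hx : x ∈ S.gr X i) (hx0 : x ∈ S.hom X)
    (hne : x ≠ 0) :
    ∃ (N M : ℕ) (L x'' : S.A ((X ⨯ Pr N) ⨯ Pr M)) (a : ℕ), HW S L x'' a 0 ∧
      ∀ (Y : 𝒱) (y : S.A Y), ex S x'' y = 0 → ex S x y = 0 := by
  obtain ⟨L, hL⟩ := hS.exists_ample X
  have hP := hproj (S.dim X)
  generalize hPr (S.dim X) = e at hP
  have hPd := hP.dim_eq
  have hw : HW S (lp S L e) (tw S L x e (S.dim X)) (i + S.dim X) (2 * i - 1) :=
    { ample := ample_lp hS hL hP.ample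
      gr := tw_gr hS (hS.ample_gr hL) (hS.ample_gr hP.ample) hx
      hom := tw_hom hS hx0
      kill := tw_kill (hS.gr_large (by omega)
        (pow_mem hS (hS.ample_gr hL) hx (S.dim X + 1))) hP.pow_zero
      wt := by rw [hS.dim_prod]; omega }
  have hdesc : ∀ (Y : 𝒱) (y : S.A Y), ex S (tw S L x e (S.dim X)) y = 0 → ex S x y = 0 := by
    intro Y y h
    have h2 := tw_coeff hS hP.indep h (Nat.zero_le _)
    rwa [pow_zero, one_mul] at h2
  have hne' : tw S L x e (S.dim X) ≠ 0 := by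
    intro h0
    apply hne
    have h1 : ex S (tw S L x e (S.dim X)) (1 : S.A X) = 0 := by rw [h0]; simp [ex]
    have h2 := congrArg (S.pull (prod.lift (𝟙 X) (𝟙 X))) (hdesc X 1 h1)
    rw [pull_lift hS, hS.pull_id, hS.pull_id, mul_one, map_zero] at h2
    exact h2
  generalize tw S L x e (S.dim X) = x' at hw hdesc hne'
  obtain ⟨j, z, hj1, hjd, hja, hzg, hzh, hzx⟩ :=
    surj hS (hQ _ _ hw.ample).1 hw.gr hw.hom hne' hw.wt
  have hQ' := hproj (2 * i - 1)
  generalize hPr (2 * i - 1) = e' at hQ'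
  have hQd := hQ'.dim_eq
  have hLg := hS.ample_gr hw.ample
  have hzk : (lp S L e) ^ (2 * i - 1 + 1) * z = 0 := by
    rw [pow_succ', mul_assoc, hzx]
    exact hw.kill
  refine ⟨S.dim X, 2 * i - 1, lp S (lp S L e) e', tw S (lp S L e) z e' (2 * i - 1),
    j + (2 * i - 1), ?_, ?_⟩
  · exact
      { ample := ample_lp hS hw.ample hQ'.ample
        gr := tw_gr hS hLg (hS.ample_gr hQ'.ample) hzg
        hom := tw_hom hS hzh
        kill := tw_kill hzk hQ'.pow_zero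
        wt := by rw [hS.dim_prod]; omega }
  · intro Y y h
    refine hdesc Y y ?_
    have h4 := tw_coeff hS hQ'.indep h (le_refl _)
    rw [neg_pow, mul_assoc, hzx] at h4
    rcases neg_one_pow_eq_or (S.A (X ⨯ Pr (S.dim X))) (2 * i - 1) with h5 | h5
    · rw [h5, one_mul] at h4
      exact h4
    · rw [h5] at h4
      have h6 : ex S (-1 * x') y = - ex S x' y := by simp [ex]
      rw [h6, neg_eq_zero] at h4
      exact h4

/-- Q1, Q2 and nilpotence imply that the external products of cycles homologous to zero vanish -/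
theorem nil_main (hS : S.Standard)
    (hQ : ∀ (X : 𝒱) (L : S.A X), S.Ample L → S.Lefschetz L ∧ S.Index L)
    {X Y : 𝒱} (hX : S.StablyNilpotent X) {i j : ℕ} {x : S.A X} {y : S.A Y}
    (hx : x ∈ S.homGr X i) (hy : y ∈ S.homGr Y j) : ex S x y = 0 := by
  by_cases hx0 : x = 0
  · rw [hx0]
    simp [ex]
  by_cases hy0 : y = 0
  · rw [hy0]
    simp [ex]
  have hi : 1 ≤ i := by
    rcases Nat.eq_zero_or_pos i with hi | hi
    · subst hi
      exact absurd (hS.hom_zero hx.1 hx.2) hx0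
    · exact hi
  have hj : 1 ≤ j := by
    rcases Nat.eq_zero_or_pos j with hj | hj
    · subst hj
      exact absurd (hS.hom_zero hy.1 hy.2) hy0
    · exact hj
  obtain ⟨Pr, hPr, hproj, hnil⟩ := hX
  obtain ⟨N, M, L, x', a, hw, hd⟩ := reduce hS hQ hproj hi hx.1 hx.2 hx0
  obtain ⟨N1, M1, L1, y', b, hw1, hd1⟩ := reduce hS hQ hproj hj hy.1 hy.2 hy0
  have h2 := nil_mid hS hQ hw hw1 (hnil N M)
  exact ex_swap hS (hd1 _ _ (ex_swap hS (hd _ _ h2)))

theorem nilpotent_of_products (hS : S.Standard) (h : S.ProductsVanish) (X : 𝒱) :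
    S.NilpotentAction X := by
  intro Γ hΓ i x hx
  refine ⟨1, ?_⟩
  show S.act Γ x = 0
  rw [act, h _ _ _ _ hΓ _ ⟨hS.pull_gr _ i _ hx.1, hS.pull_hom _ _ hx.2⟩, map_zero]

theorem products_of_nilpotent (hS : S.Standard)
    (hQ : ∀ (X : 𝒱) (L : S.A X), S.Ample L → S.Lefschetz L ∧ S.Index L)
    (h : ∀ X : 𝒱, S.NilpotentAction X) : S.ProductsVanish := by
  intro X i j x hx y hy
  choose Pr hPr hproj using hS.projective
  have h1 := nil_main hS hQ (X := X) (Y := X) ⟨Pr, hPr, hproj, fun _ _ => h _⟩ hx hy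
  have h2 := congrArg (S.pull (prod.lift (𝟙 X) (𝟙 X))) h1
  rw [pull_lift hS, map_zero, hS.pull_id, hS.pull_id] at h2
  exact h2

theorem smash_iff (hS : S.Standard)
    (hQ : ∀ (X : 𝒱) (L : S.A X), S.Ample L → S.Lefschetz L ∧ S.Index L)
    {X : 𝒱} {i : ℕ} {x : S.A X} (hx : x ∈ S.homGr X i) :
    S.SmashNilpotent x ↔ ∀ (Y : 𝒱) (j : ℕ), ∀ y ∈ S.homGr Y j, ex S x y = 0 :=
  ⟨fun hn _ _ _ hy => main hS hQ hx.1 hx.2 hn hy.1 hy.2, fun h => ⟨1, h X i x hx⟩⟩

end ChowTheory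

end Pool.Agent.Helper17.SN
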