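import Pool.Agent.Helper17.SN.Basic

set_option autoImplicit false

open CategoryTheory CategoryTheory.Limits

namespace Pool.Agent.Helper17.SN

universe u v w

namespace ChowTheory

variable {𝒱 : Type u} [Category.{v} 𝒱] {S : ChowTheory.{u, v, w} 𝒱} [HasBinaryProducts 𝒱]

/-- if `x` is primitive of middle codimension and `x × x × y = 0`, then `x × y = 0` -/
theorem lemB (hS : S.Standard)
    (hQ : ∀ (X : 𝒱) (L : S.A X), S.Ample L → S.Lefschetz L ∧ S.Index L)
    {X Y : 𝒱} {L x : S.A X} {M y : S.A Y} {a b m : ℕ}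
    (hx : HW S L x a 0) (hy : HW S M y b m) (h : ex S x (ex S x y) = 0) : ex S x y = 0 := by
  by_contra hne
  have hz := hx.ex hS hy
  obtain ⟨hP1, hP2⟩ := hQ _ _ hz.ample
  obtain ⟨i, v, hi1, hid, hia, hvg, hvh, hvz⟩ := surj hS hP1 hz.gr hz.hom hne hz.wt
  have hdx := hx.wt
  have hdy := hy.wt
  have hdp := hS.dim_prod X Y
  -- the class `u`
  have hu : ex S x v = 0 := by
    refine isotropic hS (hQ _ _ (ample_lp hS hx.ample hz.ample)).2
      (L := lp S L (lp S L M)) (i := a + i) (m := m) (ex_mem_gr hS hx.gr hvg)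
      (ex_mem_hom_left hS hx.hom) ?_ ?_ ?_
    · rw [hS.dim_prod X (X ⨯ Y)]
      omega
    · rw [lp_pow_ex _ _ hx.kill, show m + 1 = 0 + m + 1 by omega, hvz, h]
    · have hxx : x * x = 0 := hS.gr_large (by omega) (hS.mul_mem hx.gr hx.gr)
      rw [lp_pow_ex _ _ hx.kill m]
      refine ht_zero_of_mul hS (hS.pull_hom _ _ hvh) (ex_mem_hom_left hS hx.hom) ?_
      rw [ex, ← mul_assoc, ← map_mul, hxx, map_zero, zero_mul]
  -- restrict to the diagonal
  have hxv : S.pull (prod.fst : X ⨯ Y ⟶ X) x * v = 0 := by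
    have h3 := congrArg (S.pull (prod.lift (prod.fst : X ⨯ Y ⟶ X) (𝟙 (X ⨯ Y)))) hu
    rw [pull_lift hS, hS.pull_id, map_zero] at h3
    exact h3
  have hv : v = 0 := by
    refine isotropic hS hP2 (i := i) (m := 0 + m + 1) hvg hvh hid ?_ ?_
    · rw [pow_succ', mul_assoc, hvz]
      exact hz.kill
    · rw [hvz, hS.ht_symm _ hvh _ hz.hom]
      exact ht_zero_of_mul hS (hS.pull_hom _ _ hy.hom) hvh hxv
  apply hne
  rw [← hvz, hv, mul_zero]

/-- if `L^q x × M^m y = 0`, then `x × y = 0`, for primitive `x` and `y` -/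
theorem lemA (hS : S.Standard)
    (hQ : ∀ (X : 𝒱) (L : S.A X), S.Ample L → S.Lefschetz L ∧ S.Index L)
    {X Y : 𝒱} {L x : S.A X} {M y : S.A Y} {i j q m : ℕ}
    (hL : S.Ample L) (hM : S.Ample M)
    (hx : x ∈ S.gr X i) (hx0 : x ∈ S.hom X) (hxk : L ^ (q + 1) * x = 0)
    (hxd : S.dim X + 1 = 2 * i + q)
    (hy : y ∈ S.gr Y j) (hy0 : y ∈ S.hom Y) (hyk : M ^ (m + 1) * y = 0)
    (hyd : S.dim Y + 1 = 2 * j + m)
    (h : ex S (L ^ q * x) (M ^ m * y) = 0) : ex S x y = 0 := by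
  by_cases hqm : q + m = 0
  · obtain ⟨rfl, rfl⟩ : q = 0 ∧ m = 0 := by omega
    simpa using h
  obtain ⟨k, hk⟩ : ∃ k, q + m = k + 1 := ⟨q + m - 1, by omega⟩
  have hA : ∀ s, q < s → L ^ s * x = 0 := fun s hs => by
    obtain ⟨t, rfl⟩ := Nat.exists_eq_add_of_lt hs
    rw [show q + t + 1 = t + (q + 1) by omega, pow_add, mul_assoc, hxk, mul_zero]
  have hB : ∀ s, m < s → M ^ s * y = 0 := fun s hs => by
    obtain ⟨t, rfl⟩ := Nat.exists_eq_add_of_lt hs
    rw [show m + t + 1 = t + (m + 1) by omega, pow_add, mul_assoc, hyk, mul_zero]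
  have hterm : ∀ s t : ℕ, S.pull (prod.fst : X ⨯ Y ⟶ X) L ^ s *
      S.pull (prod.snd : X ⨯ Y ⟶ Y) M ^ t * ex S x y = ex S (L ^ s * x) (M ^ t * y) := by
    intro s t
    simp only [ex, map_mul, map_pow]
    ring
  refine isotropic hS (hQ _ _ (ample_lp hS hL hM)).2
    (L := lp S L M) (i := i + j) (m := k) (ex_mem_gr hS hx hy) (ex_mem_hom_left hS hx0) ?_ ?_ ?_
  · rw [hS.dim_prod]
    omega
  · rw [lp, add_pow, Finset.sum_mul]
    refine Finset.sum_eq_zero fun s hs => ?_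
    rw [mul_right_comm, hterm]
    have hs' : s ≤ k + 1 := Nat.lt_succ_iff.mp (Finset.mem_range.mp hs)
    rcases lt_trichotomy s q with h1 | h1 | h1
    · rw [hB (k + 1 - s) (by omega)]
      simp [ex]
    · subst h1
      rw [show k + 1 - s = m by omega, h, zero_mul]
    · rw [hA s h1]
      simp [ex]
  · have hmem : ex S x y ∈ S.hom (X ⨯ Y) := ex_mem_hom_left hS hx0
    rw [lp, add_pow, Finset.sum_mul]
    refine ht_zero_sum hS hmem _ _ (fun s _ => Ideal.mul_mem_left _ _ hmem) fun s hs => ?_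
    have hs' : s ≤ k := Nat.lt_succ_iff.mp (Finset.mem_range.mp hs)
    rw [mul_right_comm, hterm]
    have hw : ex S (L ^ s * x) (M ^ (k - s) * y) * ((k.choose s : ℕ) : S.A (X ⨯ Y)) ∈
        S.hom (X ⨯ Y) :=
      Ideal.mul_mem_right _ _ (ex_mem_hom_left hS (Ideal.mul_mem_left _ _ hx0))
    by_cases h6 : q ≤ s
    · have h7 : x * (L ^ s * x) = 0 :=
        hS.gr_large (by omega) (hS.mul_mem hx (pow_mem hS (hS.ample_gr hL) hx s))
      refine ht_zero_of_mul hS (a := S.pull (prod.fst : X ⨯ Y ⟶ X) x)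
        (u := S.pull (prod.snd : X ⨯ Y ⟶ Y) y) (hS.pull_hom _ _ hy0) hw ?_
      rw [ex, ← mul_assoc, ← mul_assoc, ← map_mul, h7, map_zero, zero_mul, zero_mul]
    · have h7 : y * (M ^ (k - s) * y) = 0 :=
        hS.gr_large (by omega) (hS.mul_mem hy (pow_mem hS (hS.ample_gr hM) hy (k - s)))
      have h8 : ex S x y = S.pull (prod.snd : X ⨯ Y ⟶ Y) y * S.pull (prod.fst : X ⨯ Y ⟶ X) x :=
        mul_comm _ _
      rw [h8]
      refine ht_zero_of_mul hS (hS.pull_hom _ _ hx0) hw ?_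
      rw [ex, ← mul_assoc, mul_left_comm, ← map_mul, h7, map_zero, mul_zero, zero_mul]

end ChowTheory

end Pool.Agent.Helper17.SN
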