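import Pool.Agent.Helper17.SN.LemB

set_option autoImplicit false

open CategoryTheory CategoryTheory.Limits

namespace Pool.Agent.Helper17.SN

universe u v w

namespace ChowTheory

variable {𝒱 : Type u} [Category.{v} 𝒱] {S : ChowTheory.{u, v, w} 𝒱} [HasBinaryProducts 𝒱]

/-- the class `∑ (-L)^k x h^(p-k)` -/
noncomputable def tw (S : ChowTheory.{u, v, w} 𝒱) {X P : 𝒱} (L x : S.A X) (h : S.A P) (p : ℕ) :
    S.A (X ⨯ P) :=
  ∑ k ∈ Finset.range (p + 1), ex S ((-L) ^ k * x) (h ^ (p - k))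

theorem tw_kill {X P : 𝒱} {L x : S.A X} {h : S.A P} {p : ℕ} (hL : L ^ (p + 1) * x = 0)
    (hh : h ^ (p + 1) = 0) : lp S L h * tw S L x h p = 0 := by
  have h1 : ∀ k ∈ Finset.range (p + 1), lp S L h * ex S ((-L) ^ k * x) (h ^ (p - k)) =
      ex S ((-L) ^ k * x) (h ^ (p + 1 - k)) - ex S ((-L) ^ (k + 1) * x) (h ^ (p + 1 - (k + 1))) := by
    intro k hk
    have hk' : k ≤ p := Nat.lt_succ_iff.mp (Finset.mem_range.mp hk)
    rw [lp_mul_ex, show p + 1 - k = (p - k) + 1 by omega, show p + 1 - (k + 1) = p - k by omega]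
    simp only [ex, pow_succ', map_mul, map_neg, map_pow]
    ring
  rw [tw, Finset.mul_sum, Finset.sum_congr rfl h1]
  rw [Finset.sum_range_sub' (fun k => ex S ((-L) ^ k * x) (h ^ (p + 1 - k)))]
  have h2 : (-L) ^ (p + 1) * x = 0 := by
    rw [neg_pow, mul_assoc, hL, mul_zero]
  rw [h2]
  simp [ex, hh]

theorem tw_eq {X P : 𝒱} (L x : S.A X) (h : S.A P) (p : ℕ) :
    ∃ c : S.A (X ⨯ P), tw S L x h p = c * S.pull (prod.fst : X ⨯ P ⟶ X) x := by
  refine ⟨∑ k ∈ Finset.range (p + 1), ex S ((-L) ^ k) (h ^ (p - k)), ?_⟩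
  rw [tw, Finset.sum_mul]
  refine Finset.sum_congr rfl fun k _ => ?_
  simp only [ex, map_mul]
  ring

theorem tw_gr (hS : S.Standard) {X P : 𝒱} {L x : S.A X} {h : S.A P} {p i : ℕ}
    (hL : L ∈ S.gr X 1) (hh : h ∈ S.gr P 1) (hx : x ∈ S.gr X i) :
    tw S L x h p ∈ S.gr (X ⨯ P) (i + p) := by
  have hone : ∀ k, h ^ k ∈ S.gr P k := fun k => by
    have := pow_mem hS hh (hS.one_mem P) k
    rwa [mul_one, zero_add] at this
  refine Submodule.sum_mem _ fun k hk => ?_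
  have hk' : k ≤ p := Nat.lt_succ_iff.mp (Finset.mem_range.mp hk)
  have h1 : (-L) ^ k * x ∈ S.gr X (i + k) := pow_mem hS (Submodule.neg_mem _ hL) hx k
  have := ex_mem_gr hS h1 (hone (p - k))
  rwa [show i + k + (p - k) = i + p by omega] at this

theorem tw_hom (hS : S.Standard) {X P : 𝒱} {L x : S.A X} {h : S.A P} {p : ℕ}
    (hx : x ∈ S.hom X) : tw S L x h p ∈ S.hom (X ⨯ P) :=
  Ideal.sum_mem _ fun _ _ => ex_mem_hom_left hS (Ideal.mul_mem_left _ _ hx)

/-- exchanging the factors -/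
theorem ex_swap (hS : S.Standard) {X Y : 𝒱} {x : S.A X} {y : S.A Y} (h : ex S x y = 0) :
    ex S y x = 0 := by
  have := congrArg (S.pull (prod.lift (prod.snd : Y ⨯ X ⟶ X) (prod.fst : Y ⨯ X ⟶ Y))) h
  rw [pull_lift hS, map_zero, mul_comm] at this
  exact this

/-- all coefficients vanish -/
theorem tw_coeff (hS : S.Standard) {X Y P : 𝒱} {L x : S.A X} {h : S.A P} {p : ℕ} {y : S.A Y}
    (hP : S.Independent h p) (h0 : ex S (tw S L x h p) y = 0) {k : ℕ} (hk : k ≤ p) :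
    ex S ((-L) ^ k * x) y = 0 := by
  have h1 := congrArg (S.pull (prod.lift (prod.map (prod.fst : X ⨯ Y ⟶ X) (𝟙 P))
    ((prod.fst : (X ⨯ Y) ⨯ P ⟶ X ⨯ Y) ≫ prod.snd))) h0
  rw [pull_lift hS, map_zero, tw, map_sum, Finset.sum_mul] at h1
  have h2 := hP (X ⨯ Y) (fun j => ex S ((-L) ^ (p - j) * x) y) (by
    rw [← h1, ← Finset.sum_range_reflect]
    refine Finset.sum_congr rfl fun j hj => ?_
    have hj' : j ≤ p := Nat.lt_succ_iff.mp (Finset.mem_range.mp hj)
    have e1 : p + 1 - 1 - j = p - j := by omega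
    have e2 : p - (p - j) = j := by omega
    rw [e1, e2]
    simp only [ex, map_mul, map_pow, ← hS.pull_comp, prod.map_fst, prod.map_snd, Category.comp_id]
    ring) (p - k) (by omega)
  have e3 : p - (p - k) = k := by omega
  simp only [e3] at h2
  exact h2

/-- the product `X^k × Y` -/
noncomputable def relPow (X Y : 𝒱) : ℕ → 𝒱
  | 0 => Y
  | k + 1 => X ⨯ relPow X Y k

/-- the class `x × ... × x × y` -/
noncomputable def rel (S : ChowTheory.{u, v, w} 𝒱) {X Y : 𝒱} (x : S.A X) (y : S.A Y) :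
    ∀ k : ℕ, S.A (relPow X Y k)
  | 0 => y
  | k + 1 => ex S x (rel S x y k)

theorem HW.rel (hS : S.Standard) {X Y : 𝒱} {L x : S.A X} {M y : S.A Y} {a l b m : ℕ}
    (hx : HW S L x a l) (hy : HW S M y b m) (k : ℕ) :
    ∃ (N : S.A (relPow X Y k)) (c t : ℕ), HW S N (rel S x y k) c t := by
  induction k with
  | zero => exact ⟨M, b, m, hy⟩
  | succ k ih =>
    obtain ⟨N, c, t, h⟩ := ih
    exact ⟨_, _, _, hx.ex hS h⟩

theorem aux_smash (hS : S.Standard) {X V W : 𝒱} (x : S.A X) (π : W ⟶ V) (c r : S.A W)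
    (t : S.A V) (h : r = c * S.pull π t) :
    ex S x r = S.pull prod.snd c *
      S.pull (prod.lift (prod.fst : X ⨯ W ⟶ X) (prod.snd ≫ π)) (ex S x t) := by
  rw [pull_lift hS, h, ex, map_mul, hS.pull_comp]
  ring

theorem rel_smash (hS : S.Standard) {X Y : 𝒱} (x : S.A X) (y : S.A Y) (k : ℕ) :
    ∃ (π : relPow X Y (k + 1) ⟶ pow X k) (c : S.A (relPow X Y (k + 1))),
      rel S x y (k + 1) = c * S.pull π (S.smash x k) := by
  induction k with
  | zero =>
    refine ⟨prod.fst, S.pull prod.snd y, ?_⟩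
    rw [mul_comm]
    rfl
  | succ k ih =>
    obtain ⟨π, c, h⟩ := ih
    exact ⟨_, _, aux_smash hS x π c _ _ h⟩

theorem rel_zero (hS : S.Standard) {X Y : 𝒱} {x : S.A X} (y : S.A Y) {k : ℕ}
    (h : S.smash x k = 0) : rel S x y (k + 1) = 0 := by
  obtain ⟨π, c, h1⟩ := rel_smash hS x y k
  rw [h1, h, map_zero, mul_zero]

theorem aux_perm (hS : S.Standard) {X Z V W : 𝒱} (x : S.A X) (z : S.A Z) (r : S.A V)
    (r' : S.A W) (τ : W ⟶ Z ⨯ V) (h : S.pull τ (ex S z r) = r') :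
    S.pull (prod.lift ((prod.snd : X ⨯ W ⟶ W) ≫ τ ≫ prod.fst)
      (prod.lift (prod.fst : X ⨯ W ⟶ X) ((prod.snd : X ⨯ W ⟶ W) ≫ τ ≫ prod.snd)))
      (ex S z (ex S x r)) = ex S x r' := by
  rw [pull_lift hS, pull_lift hS, ← h]
  simp only [ex, hS.pull_comp, map_mul]
  ring

theorem rel_perm (hS : S.Standard) {X Y Z : 𝒱} (x : S.A X) (y : S.A Y) (z : S.A Z) (k : ℕ) :
    ∃ τ : relPow X (Z ⨯ Y) k ⟶ Z ⨯ relPow X Y k,
      S.pull τ (ex S z (rel S x y k)) = rel S x (ex S z y) k := by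
  induction k with
  | zero => exact ⟨𝟙 _, hS.pull_id _ _⟩
  | succ k ih =>
    obtain ⟨τ, h⟩ := ih
    exact ⟨_, aux_perm hS x z _ _ τ h⟩

theorem aux_mul (hS : S.Standard) {X X' V W : 𝒱} (f : X' ⟶ X) (c : S.A X') (x : S.A X)
    (g : W ⟶ V) (e r : S.A W) (t : S.A V) (h : r = e * S.pull g t) :
    ex S (c * S.pull f x) r = (S.pull prod.fst c * S.pull prod.snd e) *
      S.pull (prod.map f g) (ex S x t) := by
  rw [h, ex, ex]
  simp only [map_mul, ← hS.pull_comp, prod.map_fst, prod.map_snd]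
  ring

/-- the smash powers of a multiple of a pull-back -/
theorem smash_mul (hS : S.Standard) {X X' : 𝒱} (f : X' ⟶ X) (c : S.A X') (x : S.A X) (k : ℕ) :
    ∃ (g : pow X' k ⟶ pow X k) (e : S.A (pow X' k)),
      S.smash (c * S.pull f x) k = e * S.pull g (S.smash x k) := by
  induction k with
  | zero => exact ⟨f, c, rfl⟩
  | succ k ih =>
    obtain ⟨g, e, h⟩ := ih
    exact ⟨_, _, aux_mul hS f c x g e _ _ h⟩

theorem smash_mul_zero (hS : S.Standard) {X X' : 𝒱} (f : X' ⟶ X) (c : S.A X') {x : S.A X} {k : ℕ}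
    (h : S.smash x k = 0) : S.smash (c * S.pull f x) k = 0 := by
  obtain ⟨g, e, h1⟩ := smash_mul hS f c x k
  rw [h1, h, map_zero, mul_zero]

/-- the theorem for classes killed by ample classes -/
theorem main_hw (hS : S.Standard)
    (hQ : ∀ (X : 𝒱) (L : S.A X), S.Ample L → S.Lefschetz L ∧ S.Index L)
    {X Y : 𝒱} {L x : S.A X} {M y : S.A Y} {a l b m : ℕ}
    (hx : HW S L x a l) (hy : HW S M y b m) {k : ℕ} (h : S.smash x k = 0) : ex S x y = 0 := by
  by_cases hx0 : x = 0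
  · rw [hx0]
    simp [ex]
  obtain ⟨i, z, hi1, hid, hia, hzg, hzh, hzx⟩ :=
    surj hS (hQ X L hx.ample).1 hx.gr hx.hom hx0 hx.wt
  obtain ⟨P, e, hPd, hPa, hPe, hP⟩ := hS.projective l
  have hLg := hS.ample_gr hx.ample
  have hzk : L ^ (l + 1) * z = 0 := by
    rw [pow_succ', mul_assoc, hzx]
    exact hx.kill
  -- the class `x''`
  have hw : HW S (lp S L e) (tw S L z e l) (i + l) 0 :=
    { ample := ample_lp hS hx.ample hPa
      gr := tw_gr hS hLg (hS.ample_gr hPa) hzg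
      hom := tw_hom hS hzh
      kill := tw_kill hzk hPe
      wt := by rw [hS.dim_prod]; omega }
  have hstep : ∀ {Y : 𝒱} {M y : S.A Y} {b m : ℕ}, HW S M y b m → ex S x y = 0 →
      ex S (tw S L z e l) y = 0 := by
    intro Y M y b m hy h
    by_cases hy0 : y = 0
    · rw [hy0]
      simp [ex]
    obtain ⟨j, t, hj1, hjd, hjb, htg, hth, hty⟩ :=
      surj hS (hQ Y M hy.ample).1 hy.gr hy.hom hy0 hy.wt
    have htk : M ^ (m + 1) * t = 0 := by
      rw [pow_succ', mul_assoc, hty]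
      exact hy.kill
    have h1 : ex S z t = 0 := lemA hS hQ hx.ample hy.ample hzg hzh hzk hid htg hth htk hjd (by
      rw [hzx, hty]; exact h)
    have h2 := congrArg (S.pull (prod.lift ((prod.fst : (X ⨯ P) ⨯ Y ⟶ X ⨯ P) ≫ prod.fst)
      (prod.snd : (X ⨯ P) ⨯ Y ⟶ Y))) h1
    rw [pull_lift hS, map_zero, hS.pull_comp] at h2
    obtain ⟨c, hc⟩ := tw_eq L z e l
    rw [hc, ← hty, ex, map_mul, map_mul, map_pow]
    calc _ = S.pull prod.fst c * S.pull prod.snd M ^ m *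
        (S.pull (prod.fst : (X ⨯ P) ⨯ Y ⟶ X ⨯ P) (S.pull (prod.fst : X ⨯ P ⟶ X) z) *
          S.pull (prod.snd : (X ⨯ P) ⨯ Y ⟶ Y) t) := by ring
      _ = 0 := by rw [h2, mul_zero]
  have hmain : ∀ (N : ℕ) {Y : 𝒱} {M y : S.A Y} {b m : ℕ}, HW S M y b m → rel S x y N = 0 →
      ex S (tw S L z e l) y = 0 := by
    intro N
    induction N with
    | zero =>
      intro Y M y b m _ h
      have h' : y = 0 := h
      rw [h']
      simp [ex]
    | succ N ih =>
      intro Y M y b m hy h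
      obtain ⟨M', c, t, hr⟩ := hx.rel hS hy N
      have h1 : ex S (tw S L z e l) (rel S x y N) = 0 := hstep hr h
      obtain ⟨τ, hτ⟩ := rel_perm hS x y (tw S L z e l) N
      have h2 : rel S x (ex S (tw S L z e l) y) N = 0 := by
        rw [← hτ, h1, map_zero]
      exact lemB hS hQ hw hy (ih (hw.ex hS hy) h2)
  have h3 := hmain (k + 1) hy (rel_zero hS y h)
  have h4 := tw_coeff hS hP h3 (le_refl l)
  rw [neg_pow, mul_assoc, hzx] at h4
  rcases neg_one_pow_eq_or (S.A X) l with h5 | h5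
  · rw [h5, one_mul] at h4
    exact h4
  · rw [h5] at h4
    have h6 : ex S (-1 * x) y = - ex S x y := by simp [ex]
    rw [h6, neg_eq_zero] at h4
    exact h4

/-- Q1 and Q2 imply that smash-nilpotent cycles annihilate cycles homologous to zero -/
theorem main (hS : S.Standard)
    (hQ : ∀ (X : 𝒱) (L : S.A X), S.Ample L → S.Lefschetz L ∧ S.Index L)
    {X Y : 𝒱} {i j : ℕ} {x : S.A X} {y : S.A Y} (hx : x ∈ S.gr X i) (hx0 : x ∈ S.hom X)
    (hn : S.SmashNilpotent x) (hy : y ∈ S.gr Y j) (hy0 : y ∈ S.hom Y) : ex S x y = 0 := by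
  obtain ⟨k, hk⟩ := hn
  rcases Nat.eq_zero_or_pos i with hi | hi
  · subst hi
    rw [hS.hom_zero hx hx0]
    simp [ex]
  rcases Nat.eq_zero_or_pos j with hj | hj
  · subst hj
    rw [hS.hom_zero hy hy0]
    simp [ex]
  -- classes killed by ample classes
  have key : ∀ {X : 𝒱} {i : ℕ} {x : S.A X}, 1 ≤ i → x ∈ S.gr X i → x ∈ S.hom X →
      ∃ (P : 𝒱) (e : S.A P) (L : S.A X), S.Independent e (S.dim P) ∧
        HW S (lp S L e) (tw S L x e (S.dim P)) (i + S.dim P) (2 * i - 1) := by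
    intro X i x hi hx hx0
    obtain ⟨L, hL⟩ := hS.exists_ample X
    obtain ⟨P, e, hPd, hPa, hPe, hP⟩ := hS.projective (S.dim X)
    rw [← hPd] at hP hPe
    refine ⟨P, e, L, hP, ample_lp hS hL hPa, tw_gr hS (hS.ample_gr hL) (hS.ample_gr hPa) hx,
      tw_hom hS hx0, tw_kill ?_ hPe, ?_⟩
    · refine hS.gr_large ?_ (pow_mem hS (hS.ample_gr hL) hx (S.dim P + 1))
      omega
    · rw [hS.dim_prod]
      omega
  obtain ⟨P, e, L, hP, hw⟩ := key hi hx hx0
  obtain ⟨P', e', L', hP', hw'⟩ := key hj hy hy0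
  have hsm : S.smash (tw S L x e (S.dim P)) k = 0 := by
    obtain ⟨c, hc⟩ := tw_eq L x e (S.dim P)
    rw [hc]
    exact smash_mul_zero hS _ _ hk
  have h1 := main_hw hS hQ hw hw' hsm
  have h2 := tw_coeff hS hP h1 (Nat.zero_le _)
  rw [pow_zero, one_mul] at h2
  have h3 := tw_coeff hS hP' (ex_swap hS h2) (Nat.zero_le _)
  rw [pow_zero, one_mul] at h3
  exact ex_swap hS h3

/-- the same for pull-backs -/
theorem main_pull (hS : S.Standard)
    (hQ : ∀ (X : 𝒱) (L : S.A X), S.Ample L → S.Lefschetz L ∧ S.Index L)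
    {X Y : 𝒱} {i j : ℕ} {x : S.A X} {y : S.A Y} (hx : x ∈ S.gr X i) (hx0 : x ∈ S.hom X)
    (hn : S.SmashNilpotent x) (hy : y ∈ S.gr Y j) (hy0 : y ∈ S.hom Y) (f : Y ⟶ X) :
    S.pull f x * y = 0 := by
  have h := congrArg (S.pull (prod.lift f (𝟙 Y))) (main hS hQ hx hx0 hn hy hy0)
  rw [pull_lift hS, map_zero, hS.pull_id] at h
  exact h

theorem voevodsky_of_products (hS : S.Standard) (h : S.ProductsVanish) : S.Voevodsky := by
  intro X i x hx
  exact ⟨1, h _ i i _ ⟨hS.pull_gr _ _ _ hx.1, hS.pull_hom _ _ hx.2⟩ _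
    ⟨hS.pull_gr _ _ _ hx.1, hS.pull_hom _ _ hx.2⟩⟩

theorem products_of_voevodsky (hS : S.Standard)
    (hQ : ∀ (X : 𝒱) (L : S.A X), S.Ample L → S.Lefschetz L ∧ S.Index L)
    (h : S.Voevodsky) : S.ProductsVanish := by
  intro X i j x hx y hy
  have h1 := main_pull hS hQ hx.1 hx.2 (h X i x hx) hy.1 hy.2 (𝟙 X)
  rwa [hS.pull_id] at h1

end ChowTheory

end Pool.Agent.Helper17.SN
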